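import Pool.Agent.VG86.WFinal

/-!
# Lovasz' path removal conjecture for graphs with few orbits
-/

set_option autoImplicit false

/-- Let `D = 112000000 * q ^ 9 * (k + 40 * q ^ 2)`. Let `H` be a connected subgraph of the finite
graph `G`, and let the finite group `Γ` act on `H` by automorphisms with at most `q` orbits. Call a
vertex `z` of `H` rich if the total order of the stabilisers of the neighbours of `z` in `H` is at
least `D` times the order of any stabiliser. Suppose that every vertex of `H` is joined to a rich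
vertex by a sequence of at most `q` steps, each from a vertex to a vertex in whose orbit it has at
least `k + 3` neighbours, and that every vertex of `G` outside of `H` has at least `k + 3`
neighbours in `H`. Then every shortest path `p` of `G` is induced, and `G` minus the vertices of `p`
is `k`-connected. -/
theorem Pool.Agent.Results.MP_e3976a_co.FewOrbits.result (k q : ℕ) (V : Type) [Fintype V]
    (G : SimpleGraph V) (W : Set V) (H : SimpleGraph W)
    (hHG : ∀ x y : W, H.Adj x y → G.Adj x y) (hH : H.Connected)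
    (Γ : Type) [Group Γ] [Finite Γ] [MulAction Γ W]
    (hact : ∀ (g : Γ) (x y : W), H.Adj x y → H.Adj (g • x) (g • y))
    (R : Fin q → W) (hR : ∀ x : W, ∃ i, ∃ g : Γ, g • R i = x)
    (hdeg : ∀ x : W, ∃ m ≤ q, ∃ z : ℕ → W, z 0 = x ∧
      (∀ i < m, k + 3 ≤ ({y : W | H.Adj (z i) y ∧ ∃ g : Γ, g • z (i + 1) = y} : Set W).ncard) ∧
      ∀ o : W, 112000000 * q ^ 9 * (k + 40 * q ^ 2) * Nat.card {g : Γ // g • o = o} ≤
        Nat.card {p : W × Γ // H.Adj (z m) p.1 ∧ p.2 • p.1 = p.1})
    (hdom : ∀ z : V, z ∉ W → k + 3 ≤ ({y : V | y ∈ W ∧ G.Adj z y} : Set V).ncard) (v w : V) :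
    (∃ p : G.Walk v w, p.length = G.dist v w) ∧
    ∀ p : G.Walk v w, p.length = G.dist v w →
      p.IsPath ∧
      (∀ x ∈ p.support, ∀ y ∈ p.support, G.Adj x y → s(x, y) ∈ p.edges) ∧
      k < Nat.card ({x : V | x ∉ p.support} : Set V) ∧
      ∀ S : Set ({x : V | x ∉ p.support} : Set V), S.ncard < k →
        ((G.induce ({x : V | x ∉ p.support} : Set V)).induce Sᶜ).Connected := by
  obtain ⟨h1, h2⟩ := Pool.Agent.VG86.core_weighted k q W H hHG hH Γ hact R hR hdeg hdom
  exact ⟨h1.exists_walk_length_eq_dist v w, fun p hp => h2 p hp⟩
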