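import Pool.Agent.LPR.Num

/-!
# Deleting an induced path while keeping high connectivity: graphs of connectivity at least
`4000 (k + log (n / δ))`, where `n` is the number of vertices and `δ` the minimum degree
-/

set_option autoImplicit false

namespace Pool.Agent.Results.MP_e3976a_co.LogDensity

open Pool.Agent.LPR Finset

theorem cN_card_eq {V : Type} [Fintype V] [DecidableEq V] (G : SimpleGraph V)
    [DecidableRel G.Adj] (y : V) : (cN G y).card = G.degree y + 1 := by
  have h1 : cN G y = insert y (G.neighborFinset y) := by
    ext z
    rw [mem_cN, mem_insert, SimpleGraph.mem_neighborFinset]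
  rw [h1, card_insert_of_notMem (by simp), SimpleGraph.card_neighborFinset_eq_degree]

/-- If the connectivity `m` of a graph with `n` vertices and minimum degree `δ` is at least
`4000 (k + log (n / δ))`, then any two distinct vertices are joined by an induced path whose
removal leaves a `k`-connected graph. -/
theorem result (k : ℕ) (hk : 1 ≤ k) (V : Type) [Fintype V] (G : SimpleGraph V)
    [DecidableRel G.Adj] (m : ℕ)
    (hm : m < Fintype.card V ∧ ∀ S : Set V, S.ncard < m → (G.induce Sᶜ).Connected)
    (h : 4000 * ((k : ℝ) + Real.log ((Fintype.card V : ℝ) / G.minDegree)) ≤ m) :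
    ∀ v w : V, v ≠ w →
      ∃ p : G.Walk v w,
        p.IsPath ∧
        (∀ x ∈ p.support, ∀ y ∈ p.support, G.Adj x y → s(x, y) ∈ p.edges) ∧
        k < Nat.card ({x : V | x ∉ p.support} : Set V) ∧
        ∀ S : Set ({x : V | x ∉ p.support} : Set V), S.ncard < k →
          ((G.induce ({x : V | x ∉ p.support} : Set V)).induce Sᶜ).Connected := by
  classical
  intro v w _
  have hC : Cn G m := cn_of_connected m hm.2
  have hd : ∀ y, G.minDegree + 1 ≤ (cN G y).card := by
    intro y
    rw [cN_card_eq]
    have := G.minDegree_le_degree y
    omega
  have hmd : m ≤ G.minDegree := by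
    have : Nonempty V := ⟨v⟩
    refine G.le_minDegree_of_forall_le_degree m fun y => ?_
    have h1 := cN_card hC hm.1 y
    rw [cN_card_eq] at h1
    omega
  exact main hk hC hm.1 hmd hd h v w

end Pool.Agent.Results.MP_e3976a_co.LogDensity
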