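import Mathlib
import Pool.Agent.PRK.Path

/-! Lovasz' path removal conjecture for graphs without an induced star with `r` leaves. -/

/-- Let `G` be a finite graph that is `(64 * (k + 4)) ^ r`-connected and in which no vertex has
`r` pairwise non-adjacent neighbours. Then any two distinct vertices of `G` are joined by an
induced path `p` such that `G` minus the vertices of `p` is `k`-connected. -/
theorem Pool.Agent.Results.MP_e3976a_co.StarFree.result (k r : ℕ) {V : Type*} [Fintype V]
    (G : SimpleGraph V)
    (hconn : (64 * (k + 4)) ^ r < Fintype.card V ∧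
      ∀ S : Set V, S.ncard < (64 * (k + 4)) ^ r → (G.induce Sᶜ).Connected)
    (hstar : ∀ (z : V) (I : Set V), I ⊆ G.neighborSet z → G.IsIndepSet I → I.ncard < r)
    (v w : V) (_hvw : v ≠ w) :
    ∃ p : G.Walk v w,
      p.IsPath ∧
      (∀ x ∈ p.support, ∀ y ∈ p.support, G.Adj x y → s(x, y) ∈ p.edges) ∧
      k < Nat.card ({x : V | x ∉ p.support} : Set V) ∧
      ∀ S : Set ({x : V | x ∉ p.support} : Set V), S.ncard < k →
        ((G.induce ({x : V | x ∉ p.support} : Set V)).induce Sᶜ).Connected :=
  Pool.Agent.PRK.main k r hconn hstar v w
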