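import Pool.Agent.VG86.IsoDim

/-!
# Lovasz' path removal conjecture for graphs of isoperimetric dimension at least two
-/

set_option autoImplicit false

/-- Let `m ≥ 10 * k + 15` and let `G` be a finite `m`-connected graph with `n` vertices such that
every vertex set `X` with `m ^ 2 / 25 ≤ |X| ≤ n / 2` has at least `5 * √|X|` neighbours outside
`X`. Then every shortest path `p` of `G` is induced, and `G` minus the vertices of `p` is
`k`-connected. -/
theorem Pool.Agent.Results.MP_e3976a_co.StrongIsoperimetry.result (k m : ℕ) (hkm : 10 * k + 15 ≤ m)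
    (V : Type) [Fintype V] (G : SimpleGraph V)
    (hconn : m < Fintype.card V ∧ ∀ S : Set V, S.ncard < m → (G.induce Sᶜ).Connected)
    (hiso : ∀ X : Set V, m ^ 2 ≤ 25 * X.ncard → 2 * X.ncard ≤ Fintype.card V →
      25 * X.ncard ≤ ({y : V | y ∉ X ∧ ∃ x ∈ X, G.Adj x y} : Set V).ncard ^ 2) (v w : V) :
    (∃ p : G.Walk v w, p.length = G.dist v w) ∧
    ∀ p : G.Walk v w, p.length = G.dist v w →
      p.IsPath ∧
      (∀ x ∈ p.support, ∀ y ∈ p.support, G.Adj x y → s(x, y) ∈ p.edges) ∧
      k < Nat.card ({x : V | x ∉ p.support} : Set V) ∧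
      ∀ S : Set ({x : V | x ∉ p.support} : Set V), S.ncard < k →
        ((G.induce ({x : V | x ∉ p.support} : Set V)).induce Sᶜ).Connected :=
  ⟨(Pool.Agent.VG86.conn_of_mconn (le_trans (by omega) hkm) hconn.2 v).exists_walk_length_eq_dist v w,
    fun p hp => Pool.Agent.VG86.iso_main k m hkm hconn hiso p hp⟩
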